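import Pool.Agent.Q167.Perm.Purity

/-!
# The Moebius-zero subcomplex of an interval of permutations need not be pure

For `σ = 1` and `π = 15423` the complex `Γ(σ, π)` has the facets `{123}` and `{321, 4312}`.  The
complex induced by the elements `τ` with `μ(σ, τ) ≠ 0` need not be pure either: for `σ = 132` and
`π = 461325` it has the facets `{2413}` and `{1324, 41325}`.
-/

set_option autoImplicit false

namespace Pool.Agent.Results.MP_923311_co.NotPure

open Pool.Agent.Q167.Perm

section zero

variable {μ : List ℕ → List ℕ → ℤ} (h : IsMoebius μ)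
include h

lemma a1 : μ [1] [1] = 1 := by
  rw [h [1] [1] (by decide) (by decide) (by decide), if_pos rfl]

lemma a12 : μ [1] [1, 2] = -1 := by
  rw [h [1] [1, 2] (by decide) (by decide) (by decide), if_neg (by decide),
    show (interval [1] [1, 2]).erase [1, 2] = {[1]} from by decide, Finset.sum_singleton, a1 h]

lemma a21 : μ [1] [2, 1] = -1 := by
  rw [h [1] [2, 1] (by decide) (by decide) (by decide), if_neg (by decide),
    show (interval [1] [2, 1]).erase [2, 1] = {[1]} from by decide, Finset.sum_singleton, a1 h]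

lemma a123 : μ [1] [1, 2, 3] = 0 := by
  rw [h [1] [1, 2, 3] (by decide) (by decide) (by decide), if_neg (by decide),
    show (interval [1] [1, 2, 3]).erase [1, 2, 3] = {[1], [1, 2]} from by decide,
    Finset.sum_pair (by decide), a1 h, a12 h]
  norm_num

lemma a321 : μ [1] [3, 2, 1] = 0 := by
  rw [h [1] [3, 2, 1] (by decide) (by decide) (by decide), if_neg (by decide),
    show (interval [1] [3, 2, 1]).erase [3, 2, 1] = {[1], [2, 1]} from by decide,
    Finset.sum_pair (by decide), a1 h, a21 h]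
  norm_num

lemma a132 : μ [1] [1, 3, 2] = 1 := by
  rw [h [1] [1, 3, 2] (by decide) (by decide) (by decide), if_neg (by decide),
    show (interval [1] [1, 3, 2]).erase [1, 3, 2] = {[1], [1, 2], [2, 1]} from by decide,
    Finset.sum_insert (by decide), Finset.sum_pair (by decide), a1 h, a12 h, a21 h]
  norm_num

lemma a312 : μ [1] [3, 1, 2] = 1 := by
  rw [h [1] [3, 1, 2] (by decide) (by decide) (by decide), if_neg (by decide),
    show (interval [1] [3, 1, 2]).erase [3, 1, 2] = {[1], [1, 2], [2, 1]} from by decide,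
    Finset.sum_insert (by decide), Finset.sum_pair (by decide), a1 h, a12 h, a21 h]
  norm_num

lemma a1423 : μ [1] [1, 4, 2, 3] = -1 := by
  rw [h [1] [1, 4, 2, 3] (by decide) (by decide) (by decide), if_neg (by decide),
    show (interval [1] [1, 4, 2, 3]).erase [1, 4, 2, 3] =
      {[1], [1, 2], [2, 1], [1, 2, 3], [1, 3, 2], [3, 1, 2]} from by decide,
    Finset.sum_insert (by decide), Finset.sum_insert (by decide), Finset.sum_insert (by decide),
    Finset.sum_insert (by decide), Finset.sum_pair (by decide), a1 h, a12 h, a21 h, a123 h, a132 h,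
    a312 h]
  norm_num

lemma a1432 : μ [1] [1, 4, 3, 2] = 0 := by
  rw [h [1] [1, 4, 3, 2] (by decide) (by decide) (by decide), if_neg (by decide),
    show (interval [1] [1, 4, 3, 2]).erase [1, 4, 3, 2] =
      {[1], [1, 2], [2, 1], [1, 3, 2], [3, 2, 1]} from by decide,
    Finset.sum_insert (by decide), Finset.sum_insert (by decide), Finset.sum_insert (by decide),
    Finset.sum_pair (by decide), a1 h, a12 h, a21 h, a132 h, a321 h]
  norm_num

lemma a4312 : μ [1] [4, 3, 1, 2] = 0 := by
  rw [h [1] [4, 3, 1, 2] (by decide) (by decide) (by decide), if_neg (by decide),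
    show (interval [1] [4, 3, 1, 2]).erase [4, 3, 1, 2] =
      {[1], [1, 2], [2, 1], [3, 1, 2], [3, 2, 1]} from by decide,
    Finset.sum_insert (by decide), Finset.sum_insert (by decide), Finset.sum_insert (by decide),
    Finset.sum_pair (by decide), a1 h, a12 h, a21 h, a312 h, a321 h]
  norm_num

lemma zero_verts (τ : List ℕ) : τ ∈ zeroVerts μ [1] [1, 5, 4, 2, 3] ↔
    τ = [1, 2, 3] ∨ τ = [3, 2, 1] ∨ τ = [1, 4, 3, 2] ∨ τ = [4, 3, 1, 2] := by
  unfold zeroVerts
  rw [Set.mem_ofPred_eq, show interval [1] [1, 5, 4, 2, 3] =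
    {[1], [1, 2], [2, 1], [1, 2, 3], [1, 3, 2], [3, 1, 2], [3, 2, 1], [1, 4, 2, 3], [1, 4, 3, 2],
      [4, 3, 1, 2], [1, 5, 4, 2, 3]} from by decide]
  simp only [Finset.mem_insert, Finset.mem_singleton]
  constructor
  · rintro ⟨h1, h2, h3, h4⟩
    rcases h1 with rfl | rfl | rfl | rfl | rfl | rfl | rfl | rfl | rfl | rfl | rfl
    · exact absurd rfl h2
    · rw [a12 h] at h4; omega
    · rw [a21 h] at h4; omega
    · simp
    · rw [a132 h] at h4; omega
    · rw [a312 h] at h4; omega
    · simp
    · rw [a1423 h] at h4; omega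
    · simp
    · simp
    · exact absurd rfl h3
  · rintro (rfl | rfl | rfl | rfl)
    · exact ⟨by simp, by simp, by simp, a123 h⟩
    · exact ⟨by simp, by simp, by simp, a321 h⟩
    · exact ⟨by simp, by simp, by simp, a1432 h⟩
    · exact ⟨by simp, by simp, by simp, a4312 h⟩

theorem not_pure_zero : ¬ IsPure (zeroVerts μ [1] [1, 5, 4, 2, 3]) := by
  intro hp
  have h1 : IsFacet (zeroVerts μ [1] [1, 5, 4, 2, 3]) {[1, 2, 3]} := by
    refine ⟨⟨?_, ?_⟩, ?_⟩
    · intro τ hτ
      rw [Finset.mem_singleton] at hτ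
      rw [zero_verts h]; exact Or.inl hτ
    · intro a ha b hb
      rw [Finset.mem_singleton] at ha hb
      subst ha hb
      exact Or.inl (by decide)
    · intro F hF hsub
      apply Finset.Subset.antisymm _ hsub
      intro τ hτ
      have h2 := (zero_verts h τ).1 (hF.1 τ hτ)
      have h3 := hF.2 [1, 2, 3] (hsub (by simp)) τ hτ
      rw [Finset.mem_singleton]
      rcases h2 with rfl | rfl | rfl | rfl
      · rfl
      · exact absurd h3 (by decide)
      · exact absurd h3 (by decide)
      · exact absurd h3 (by decide)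
  have h2 : IsFacet (zeroVerts μ [1] [1, 5, 4, 2, 3]) {[3, 2, 1], [4, 3, 1, 2]} := by
    refine ⟨⟨?_, ?_⟩, ?_⟩
    · intro τ hτ
      rw [Finset.mem_insert, Finset.mem_singleton] at hτ
      rw [zero_verts h]
      rcases hτ with rfl | rfl
      · exact Or.inr (Or.inl rfl)
      · exact Or.inr (Or.inr (Or.inr rfl))
    · intro a ha b hb
      rw [Finset.mem_insert, Finset.mem_singleton] at ha hb
      rcases ha with rfl | rfl <;> rcases hb with rfl | rfl
      · exact Or.inl (by decide)
      · exact Or.inl (by decide)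
      · exact Or.inr (by decide)
      · exact Or.inl (by decide)
    · intro F hF hsub
      apply Finset.Subset.antisymm _ hsub
      intro τ hτ
      have h2 := (zero_verts h τ).1 (hF.1 τ hτ)
      have h3 := hF.2 [3, 2, 1] (hsub (by simp)) τ hτ
      have h4 := hF.2 [4, 3, 1, 2] (hsub (by simp)) τ hτ
      rw [Finset.mem_insert, Finset.mem_singleton]
      rcases h2 with rfl | rfl | rfl | rfl
      · exact absurd h3 (by decide)
      · exact Or.inl rfl
      · exact absurd h4 (by decide)
      · exact Or.inr rfl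
  have := hp _ _ h1 h2
  simp at this

end zero

section nonzero

variable {μ : List ℕ → List ℕ → ℤ} (h : IsMoebius μ)
include h

lemma b132 : μ [1, 3, 2] [1, 3, 2] = 1 := by
  rw [h [1, 3, 2] [1, 3, 2] (by decide) (by decide) (by decide), if_pos rfl]

lemma b1324 : μ [1, 3, 2] [1, 3, 2, 4] = -1 := by
  rw [h [1, 3, 2] [1, 3, 2, 4] (by decide) (by decide) (by decide), if_neg (by decide),
    show (interval [1, 3, 2] [1, 3, 2, 4]).erase [1, 3, 2, 4] = {[1, 3, 2]} from by decide,
    Finset.sum_singleton, b132 h]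

lemma b2413 : μ [1, 3, 2] [2, 4, 1, 3] = -1 := by
  rw [h [1, 3, 2] [2, 4, 1, 3] (by decide) (by decide) (by decide), if_neg (by decide),
    show (interval [1, 3, 2] [2, 4, 1, 3]).erase [2, 4, 1, 3] = {[1, 3, 2]} from by decide,
    Finset.sum_singleton, b132 h]

lemma b4132 : μ [1, 3, 2] [4, 1, 3, 2] = -1 := by
  rw [h [1, 3, 2] [4, 1, 3, 2] (by decide) (by decide) (by decide), if_neg (by decide),
    show (interval [1, 3, 2] [4, 1, 3, 2]).erase [4, 1, 3, 2] = {[1, 3, 2]} from by decide,
    Finset.sum_singleton, b132 h]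

lemma b35124 : μ [1, 3, 2] [3, 5, 1, 2, 4] = 0 := by
  rw [h [1, 3, 2] [3, 5, 1, 2, 4] (by decide) (by decide) (by decide), if_neg (by decide),
    show (interval [1, 3, 2] [3, 5, 1, 2, 4]).erase [3, 5, 1, 2, 4] =
      {[1, 3, 2], [2, 4, 1, 3]} from by decide,
    Finset.sum_pair (by decide), b132 h, b2413 h]
  norm_num

lemma b35214 : μ [1, 3, 2] [3, 5, 2, 1, 4] = 0 := by
  rw [h [1, 3, 2] [3, 5, 2, 1, 4] (by decide) (by decide) (by decide), if_neg (by decide),
    show (interval [1, 3, 2] [3, 5, 2, 1, 4]).erase [3, 5, 2, 1, 4] =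
      {[1, 3, 2], [2, 4, 1, 3]} from by decide,
    Finset.sum_pair (by decide), b132 h, b2413 h]
  norm_num

lemma b41325 : μ [1, 3, 2] [4, 1, 3, 2, 5] = 1 := by
  rw [h [1, 3, 2] [4, 1, 3, 2, 5] (by decide) (by decide) (by decide), if_neg (by decide),
    show (interval [1, 3, 2] [4, 1, 3, 2, 5]).erase [4, 1, 3, 2, 5] =
      {[1, 3, 2], [1, 3, 2, 4], [4, 1, 3, 2]} from by decide,
    Finset.sum_insert (by decide), Finset.sum_pair (by decide), b132 h, b1324 h, b4132 h]
  norm_num

lemma b45132 : μ [1, 3, 2] [4, 5, 1, 3, 2] = 0 := by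
  rw [h [1, 3, 2] [4, 5, 1, 3, 2] (by decide) (by decide) (by decide), if_neg (by decide),
    show (interval [1, 3, 2] [4, 5, 1, 3, 2]).erase [4, 5, 1, 3, 2] =
      {[1, 3, 2], [4, 1, 3, 2]} from by decide,
    Finset.sum_pair (by decide), b132 h, b4132 h]
  norm_num

lemma nonzero_verts (τ : List ℕ) (hτ : τ ∈ nonzeroVerts μ [1, 3, 2] [4, 6, 1, 3, 2, 5]) :
    τ = [1, 3, 2, 4] ∨ τ = [2, 4, 1, 3] ∨ τ = [4, 1, 3, 2] ∨ τ = [4, 1, 3, 2, 5] ∨
      τ = [5, 1, 3, 2, 4] := by
  unfold nonzeroVerts at hτ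
  rw [Set.mem_ofPred_eq, show interval [1, 3, 2] [4, 6, 1, 3, 2, 5] =
    {[1, 3, 2], [1, 3, 2, 4], [2, 4, 1, 3], [4, 1, 3, 2], [3, 5, 1, 2, 4], [3, 5, 2, 1, 4],
      [4, 1, 3, 2, 5], [4, 5, 1, 3, 2], [5, 1, 3, 2, 4], [4, 6, 1, 3, 2, 5]} from by decide] at hτ
  simp only [Finset.mem_insert, Finset.mem_singleton] at hτ
  obtain ⟨h1, h2, h3, h4⟩ := hτ
  rcases h1 with rfl | rfl | rfl | rfl | rfl | rfl | rfl | rfl | rfl | rfl
  · exact absurd rfl h2
  · simp
  · simp
  · simp
  · exact absurd (b35124 h) h4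
  · exact absurd (b35214 h) h4
  · simp
  · exact absurd (b45132 h) h4
  · simp
  · exact absurd rfl h3

theorem not_pure_nonzero : ¬ IsPure (nonzeroVerts μ [1, 3, 2] [4, 6, 1, 3, 2, 5]) := by
  intro hp
  have h1 : IsFacet (nonzeroVerts μ [1, 3, 2] [4, 6, 1, 3, 2, 5]) {[2, 4, 1, 3]} := by
    refine ⟨⟨?_, ?_⟩, ?_⟩
    · intro τ hτ
      rw [Finset.mem_singleton] at hτ
      subst hτ
      exact ⟨by decide, by decide, by decide, by rw [b2413 h]; decide⟩
    · intro a ha b hb
      rw [Finset.mem_singleton] at ha hb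
      subst ha hb
      exact Or.inl (by decide)
    · intro F hF hsub
      apply Finset.Subset.antisymm _ hsub
      intro τ hτ
      have h2 := nonzero_verts h τ (hF.1 τ hτ)
      have h3 := hF.2 [2, 4, 1, 3] (hsub (by simp)) τ hτ
      rw [Finset.mem_singleton]
      rcases h2 with rfl | rfl | rfl | rfl | rfl
      · exact absurd h3 (by decide)
      · rfl
      · exact absurd h3 (by decide)
      · exact absurd h3 (by decide)
      · exact absurd h3 (by decide)
  have h2 : IsFacet (nonzeroVerts μ [1, 3, 2] [4, 6, 1, 3, 2, 5])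
      {[1, 3, 2, 4], [4, 1, 3, 2, 5]} := by
    refine ⟨⟨?_, ?_⟩, ?_⟩
    · intro τ hτ
      rw [Finset.mem_insert, Finset.mem_singleton] at hτ
      rcases hτ with rfl | rfl
      · exact ⟨by decide, by decide, by decide, by rw [b1324 h]; decide⟩
      · exact ⟨by decide, by decide, by decide, by rw [b41325 h]; decide⟩
    · intro a ha b hb
      rw [Finset.mem_insert, Finset.mem_singleton] at ha hb
      rcases ha with rfl | rfl <;> rcases hb with rfl | rfl
      · exact Or.inl (by decide)
      · exact Or.inl (by decide)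
      · exact Or.inr (by decide)
      · exact Or.inl (by decide)
    · intro F hF hsub
      apply Finset.Subset.antisymm _ hsub
      intro τ hτ
      have h2 := nonzero_verts h τ (hF.1 τ hτ)
      have h3 := hF.2 [1, 3, 2, 4] (hsub (by simp)) τ hτ
      have h4 := hF.2 [4, 1, 3, 2, 5] (hsub (by simp)) τ hτ
      rw [Finset.mem_insert, Finset.mem_singleton]
      rcases h2 with rfl | rfl | rfl | rfl | rfl
      · exact Or.inl rfl
      · exact absurd h3 (by decide)
      · exact absurd h3 (by decide)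
      · exact Or.inr rfl
      · exact absurd h4 (by decide)
  have := hp _ _ h1 h2
  simp at this

end nonzero

/-- The Moebius function exists, and for it neither the complex `Γ(1, 15423)` induced by the
elements with Moebius value zero, nor the complex induced by the elements of the open interval
`(132, 461325)` with nonzero Moebius value, is pure. -/
theorem result : (∃ μ, IsMoebius μ) ∧ ∀ μ, IsMoebius μ →
    ¬ IsPure (zeroVerts μ [1] [1, 5, 4, 2, 3]) ∧
    ¬ IsPure (nonzeroVerts μ [1, 3, 2] [4, 6, 1, 3, 2, 5]) :=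
  ⟨⟨mob, isMoebius_mob⟩, fun _ h => ⟨not_pure_zero h, not_pure_nonzero h⟩⟩

end Pool.Agent.Results.MP_923311_co.NotPure
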